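import Pool.Agent.H180.PG.Stm

/-!
# Job PG-Card
-/

open Set Topology Cardinal Ordinal

namespace Pool.Agent.Q100.PG

open Pool.Agent.H180.PG

theorem card : S_Card := by
  have hlim : Order.IsSuccLimit (aleph 1).ord := Cardinal.isSuccLimit_ord (aleph0_le_aleph 1)
  obtain ⟨K, hK⟩ : ∃ K : Type, #K = beth (aleph 1).ord :=
    ⟨(beth (aleph 1).ord).out, Cardinal.mk_out _⟩
  have hK0 : ℵ₀ ≤ #K := hK ▸ aleph0_le_beth _
  have hSL : IsStrongLimit (#K) := by
    rw [hK]
    exact isStrongLimit_beth.2 hlim.isSuccPrelimit
  have hcof : (#K).ord.cof = aleph 1 := by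
    rw [hK]
    have h1 : Order.IsNormal (fun o : Ordinal => (beth o).ord) := isNormal_ord.comp isNormal_beth
    have h2 := cof_map_of_isNormal h1 hlim
    exact h2.trans isRegular_aleph_one.cof_ord
  refine ⟨K, hK0, ?_, ?_⟩
  · have hc := mk_subset_mk_lt_cof (α := K) hSL.isStrongPrelimit
    rw [hcof] at hc
    -- functions from ℕ to K
    have e : K ≃ ℕ × K := by
      refine Classical.choice (Cardinal.eq.1 ?_)
      rw [mk_prod, mk_nat, lift_aleph0, Cardinal.lift_id, Cardinal.aleph0_mul_eq hK0]
    have hinj : Function.Injective (fun f : ℕ → K =>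
        (⟨e ⁻¹' (range fun n => (n, f n)), by
          have : (e ⁻¹' (range fun n => (n, f n))).Countable :=
            (countable_range _).preimage e.injective
          exact lt_of_le_of_lt this.le_aleph0 aleph0_lt_aleph_one⟩ :
          {s : Set K // #s < aleph 1})) := by
      intro f g hfg
      have h := congrArg Subtype.val hfg
      simp only at h
      have h' : (range fun n => (n, f n)) = range fun n => (n, g n) :=
        e.surjective.preimage_injective h
      funext n
      have hn : (n, f n) ∈ range fun n => (n, g n) := h' ▸ mem_range_self n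
      obtain ⟨m, hm⟩ := hn
      simp only [Prod.mk.injEq] at hm
      obtain ⟨rfl, h2⟩ := hm
      exact h2.symm
    have := mk_le_of_injective hinj
    rw [hc] at this
    simpa [mk_pi, Cardinal.prod_const'] using this
  · have := lt_power_cof_ord hK0
    rwa [hcof] at this

end Pool.Agent.Q100.PG
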